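import Pool.Agent.Run7.h644.SK.Global

/-!
# The Skolem Problem on algebraic families of initial values, and membership in recurrences

The coefficients `c` of the recurrence are fixed, of any order, with squarefree characteristic polynomial
(any number of dominant roots).  The initial values `a_i(x)` are polynomials with integer coefficients in
parameters `x = (x_1, …, x_r)`, and we ask for which `x` the sequence `u = u^(x)` takes the value `F(x)`,
where `F` is one more polynomial (`F = 0`: the Skolem Problem).  `W n` is the `n`-th term as a polynomial
in the parameters.

`Certified c a F`: there are `A, δ > 0` such that for all large `H`, in every box of parameters of side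
`2 H + 1` (with any centre), for all but a proportion `H ^ (-δ)` of the `x` there is a prime
`p ≤ (log H) ^ A` such that `u` has period `p - 1` modulo `p` and no term congruent to `F(x)` modulo `p`
(a certificate which is checked by computing `p - 1` terms modulo `p`).

**Theorem.**
1. `Certified c a F` if no prime `p ≥ p₀` divides (all coefficients of) one of the polynomials `W n - F`.
2. (Skolem Problem on curves and other algebraic families.)  `Certified c a 0` if the polynomials
  `a_0, …, a_{d-1}` are linearly independent.  The number `r` of parameters may be much smaller than the
  order `d`: for example `a_i = x ^ i` or `a_i = x ^ (i + 1)`, a curve in the space of initial values.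
3. (Membership.)  For fixed integers as initial values, and every polynomial `F` which is not constant,
  `Certified c a F`: for almost all `x` the integer `F(x)` is not a term of `u`, with a certificate.  For
  `F = x` this says that for all but at most `(2 H + 1) H ^ (-δ)` of the integers `N` of any interval of
  length `2 H` there is a prime `p ≤ (log H) ^ A` modulo which `N` is not a term.  Note that `u - N` is a
  recurrence whose vector of initial values runs through a line.

The starting results on random initial values (`AlmostAllInitialValues`, `PolylogCertificates`,
`SmoothedAnalysis`) need all initial values to vary independently over a box (`r = d`, `a_i = x_i`).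

Proof.  Let `D` bound the degrees.  For a positive proportion of the primes in the logarithmic scale the
characteristic roots are `2D`-th powers modulo `p` and `p ≡ 1 mod 2D`, so that the sequences have period
`(p - 1) / (2 D)` modulo `p`.  By Schwartz–Zippel, for each `n` at most `D p ^ (r - 1)` parameters modulo
`p` are zeros of `W n - F`.  So at least half of the parameters modulo `p` are good.  The general
counting theorem of the starting library (`Pool.Agent.H684R3.Smo.h5`) finishes the proof of 1.  For 2 the
`W n` are combinations of the `a_i` with coefficients which are the basis solutions; these have no
common prime factor prime to the last coefficient.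
-/

set_option autoImplicit false

namespace Pool.Agent.Results.MP_8d13b5_lc.AlgebraicFamilies

open Pool.Agent.H884R2.Sko Pool.Agent.Run7.h644.SK

/-- **The Skolem Problem on algebraic families of initial values, and membership.** -/
theorem result (d : ℕ) (hd : 1 ≤ d) (c : Fin d → ℤ) (hc : c ⟨d - 1, by omega⟩ ≠ 0)
    (hsq : Squarefree ((charPoly c).map (Int.castRingHom ℚ))) (r : ℕ) :
    -- 1. the general form
    (∀ (a : Fin d → MvPolynomial (Fin r) ℤ) (F : MvPolynomial (Fin r) ℤ) (p₀ : ℕ),
      (∀ W, IsSeqP c a W → ∀ p : ℕ, p.Prime → p₀ ≤ p →
        ∀ n, ¬ MvPolynomial.C (p : ℤ) ∣ W n - F) → Certified c a F) ∧
    -- 2. linearly independent polynomials as initial values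
    (∀ a : Fin d → MvPolynomial (Fin r) ℤ, LinearIndependent ℤ a → Certified c a 0) ∧
    -- 3. membership of polynomial values in a fixed sequence
    (∀ (α : Fin d → ℤ) (F : MvPolynomial (Fin r) ℤ), (∀ z : ℤ, F ≠ MvPolynomial.C z) →
      Certified c (fun i => MvPolynomial.C (α i)) F) :=
  ⟨fun a F p₀ h => main_general hd c hc hsq a F p₀ h,
    fun a ha => independent hd c hc hsq a ha,
    fun α F hF => membership hd c hc hsq α F hF⟩

end Pool.Agent.Results.MP_8d13b5_lc.AlgebraicFamilies
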