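import Pool.Agent.Run7.h644.SK.MatGlobal

/-!
# Common zeros of recurrence sequences, and products of powers of several matrices, for almost all inputs

The Skolem Problem asks whether the orbit `M ^ n x` of an integer vector meets a given hyperplane.  Here
are the analogues for subspaces of larger codimension and for products `M_1 ^ n_1 ⋯ M_k ^ n_k x` of powers
of several matrices, which do not have to commute (for such products the reachability problem is
undecidable in general), with characteristic polynomials which may have multiple roots.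

**Theorem.**  Let `M_1, …, M_k` (`k ≥ 1`) be nonsingular integer matrices of size `d` and let `V = ker W`
be a rational subspace of codimension `m`, where `W` is an integer matrix with `m` linearly independent
rows.  Suppose that `m ≥ k + #{i : M_i is not diagonalizable}` (the sum of the weights, `1` for
diagonalizable matrices and `2` for the others).  Then there are `A, δ > 0` such that for all large `H`, in
every box of integer vectors of side `2 H + 1` (with any centre), all but a proportion `H ^ (-δ)` of the
vectors `x` have a prime `p ≤ (log H) ^ A` with `M_i ^ (p (p - 1)) ≡ 1` and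
`W M_1 ^ n_1 ⋯ M_k ^ n_k x ≢ 0` modulo `p` for all `n_1, …, n_k`.  So for almost all `x` the products never
reach the subspace `V`, with a certificate which is checked by computing modulo a very small prime.

2. For linear recurrences of any order `d` with any integer coefficients, simple or not (last
coefficient not zero), and `m ≥ 2` linearly independent linear forms `L_j` in `d` consecutive terms: for
almost all initial values there is a prime `p ≤ (log H) ^ A` such that `u` has period `p (p - 1)` modulo `p`
and the values `L_j(u(n), …, u(n + d - 1))` are never all divisible by `p`.  For example `u` never has two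
consecutive zeros (`L = (u(n), u(n+1))`), even modulo `p`; or: the Skolem Problem for the (non-simple)
recurrence sequences `∑ L_j(u(n), …, u(n + d - 1)) ^ 2`.

The starting results on random initial values need one simple recurrence and one linear form.

Proof.  Let `f_i` be the minimal polynomial of `M_i`.  For a positive proportion of the primes in the
logarithmic scale the roots of all `f_i` are squares modulo `p`.  Then `f_i` divides `X ^ ((p - 1)/2) - 1`
modulo `p`, or its `p`-th power if `f_i` has multiple roots, so that `M_i` has period `(p - 1)/2`, or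
`p (p - 1)/2`.  So there are at most `p ^ m / 2 ^ k` products modulo `p`, each of which is invertible and
takes exactly `p ^ (d - m)` vectors to `V`; at least half of the vectors modulo `p` are good.  The general
counting theorem of the starting library (`Pool.Agent.H684R3.Smo.h5`) finishes the proof.
-/

set_option autoImplicit false

namespace Pool.Agent.Results.MP_8d13b5_lc.CommonZeros

open Pool.Agent.H884R2.Sko Pool.Agent.Run7.h644.SK

/-- **Common zeros, and products of powers of several matrices, for almost all inputs.**
`Diag N`: the minimal polynomial of `N` over `ℚ` is squarefree, `weight N` is `1` if `Diag N` and `2`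
otherwise, `mprod M n = M_1 ^ n_1 ⋯ M_k ^ n_k`, `IsSeq c a u`: `u` is the recurrence sequence with
coefficients `c` and initial values `a`. -/
theorem result (d m : ℕ) :
    -- 1. products of powers of matrices
    (∀ (k : ℕ), 1 ≤ k → ∀ M : Fin k → Matrix (Fin d) (Fin d) ℤ, (∀ i, (M i).det ≠ 0) →
      ∀ W : Matrix (Fin m) (Fin d) ℤ, LinearIndependent ℤ W.row → ∑ i, weight (M i) ≤ m →
      ∃ A δ : ℝ, 0 < A ∧ 0 < δ ∧ ∃ H₀ : ℕ, ∀ H : ℕ, H₀ ≤ H → ∀ b : Fin d → ℤ,
        ∃ E ⊆ box b H, (E.card : ℝ) ≤ (2 * (H : ℝ) + 1) ^ d * (H : ℝ) ^ (-δ) ∧
          ∀ x ∈ box b H, x ∉ E → ∃ p : ℕ, p.Prime ∧ (p : ℝ) ≤ Real.log H ^ A ∧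
            (∀ i, (M i ^ (p * (p - 1))).map (Int.castRingHom (ZMod p)) = 1) ∧
            ∀ n : Fin k → ℕ, ∃ j, ¬ (p : ℤ) ∣ W.mulVec ((mprod M n).mulVec x) j) ∧
    -- 2. common zeros for linear recurrences of any kind
    (∀ (hd : 1 ≤ d) (c : Fin d → ℤ), c ⟨d - 1, by omega⟩ ≠ 0 →
      ∀ L : Matrix (Fin m) (Fin d) ℤ, LinearIndependent ℤ L.row → 2 ≤ m →
      ∃ A δ : ℝ, 0 < A ∧ 0 < δ ∧ ∃ H₀ : ℕ, ∀ H : ℕ, H₀ ≤ H → ∀ b : Fin d → ℤ,
        ∃ E ⊆ box b H, (E.card : ℝ) ≤ (2 * (H : ℝ) + 1) ^ d * (H : ℝ) ^ (-δ) ∧
          ∀ a ∈ box b H, a ∉ E → ∃ p : ℕ, p.Prime ∧ (p : ℝ) ≤ Real.log H ^ A ∧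
            ∀ u, IsSeq c a u → (∀ n, (p : ℤ) ∣ u (n + p * (p - 1)) - u n) ∧
              ∀ n, ∃ j, ¬ (p : ℤ) ∣ ∑ i, L j i * u (n + i)) :=
  ⟨fun _ hk M hM W hW hs => mat_main hk M hM W hW hs,
    fun hd c hc L hL hm => rec_main hd c hc L hL hm⟩

end Pool.Agent.Results.MP_8d13b5_lc.CommonZeros
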