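import Pool.Agent.Run7.h644.SK.Double

/-!
# The Skolem Problem for recurrences with one double root, for almost all initial values

The starting results treat fixed recurrences with simple roots.  For fixed recurrences with multiple roots
the exponential local-global principle fails, and modulo a typical prime every sequence has a zero
term as soon as there is a double root.

**Theorem.**  Let `c` be an integer recurrence of any order `d ≥ 2` with nonzero last coefficient whose
characteristic polynomial is `(X - ρ) g`, where `g` has no multiple roots: so all roots are simple but
possibly for the root `ρ`, which may be a double root.  (If a recurrence has one double root and no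
other multiple root then the double root is an integer `ρ`, and this holds.)  For every `ε > 0` there
are `z` and `H₀` such that for all `H ≥ H₀`, in every box of initial values of side `2 H + 1` (with any
centre), for all but a proportion `ε` of the initial values there is a prime `p ≤ z` modulo which the
sequence has period `(p - 1) / 2` and no zero term.

So almost all sequences have no zero, with a certificate of bounded size for almost all initial
values, and the errorless algorithm of the starting results decides it for them.

Proof.  Modulo `p` the sequences annihilated by `g` form a hyperplane in the space of initial values.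
If the characteristic roots are squares modulo `p` then at least half of the points of this hyperplane give
sequences of period `(p - 1) / 2` without zero term (starting library).  So the proportion of the initial
values modulo `p` which are good is at least `1 / (2 p)`, and the sum of `1 / (2 p)` over the primes in
question diverges, by the pole of the Dedekind zeta function of a splitting field at `1`.
-/

set_option autoImplicit false

namespace Pool.Agent.Results.MP_8d13b5_lc.OneDoubleRoot

open Pool.Agent.H884R2.Sko Polynomial

/-- **The Skolem Problem for recurrences with one double root.** -/
theorem result (d : ℕ) (hd : 2 ≤ d) (c : Fin d → ℤ) (hc : c ⟨d - 1, by omega⟩ ≠ 0) (ρ : ℤ)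
    (g : ℤ[X]) (hfac : charPoly c = (X - C ρ) * g)
    (hsq : Squarefree (g.map (Int.castRingHom ℚ))) (ε : ℝ) (hε : 0 < ε) :
    ∃ z H₀ : ℕ, ∀ H : ℕ, H₀ ≤ H → ∀ b : Fin d → ℤ,
      ∃ E ⊆ box b H, (E.card : ℝ) ≤ ε * (2 * (H : ℝ) + 1) ^ d ∧
        ∀ a ∈ box b H, a ∉ E → ∃ p : ℕ, p.Prime ∧ p ≤ z ∧ ∀ u, IsSeq c a u →
          (∀ n, (p : ℤ) ∣ u (n + (p - 1) / 2) - u n) ∧ ∀ n, ¬ (p : ℤ) ∣ u n :=
  Pool.Agent.Run7.h644.SK.one_double hd c hc ρ g hfac hsq ε hε

end Pool.Agent.Results.MP_8d13b5_lc.OneDoubleRoot
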