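import Pool.Agent.Run7.h823.WF.Sk
import Pool.Agent.Run7.h823.WF.Ex
import Pool.Agent.Results.MP_8d13b5_lc.AlmostAllCoefficients

set_option autoImplicit false

/-!
# The Skolem Problem for coefficient vectors in sparse families of vectors of residues: the first `m ^ ε` terms of linear
# recurrences modulo `m`

Consider the recurrences `u_{n + d} = v_1 u_{n + d - 1} + ... + v_d u_n`, where the vector of coefficients `v = c₀ + y_i`
runs through an arbitrary family `y_i`, `i ∈ s`, of vectors of residues modulo an integer `q` (represented by the least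
residues) whose Fourier coefficients at the nonzero frequencies are at most `q ^ (-β)` times their number. For all but
`q ^ (-δ) |s|` members of the family the Skolem Problem is solved for ALL initial values with `|a_i| ≤ q ^ δ`
simultaneously (`Easy`).

The family can be very sparse: examples are

* the values `(u_1(n), …, u_d(n))`, `n < N`, of `d` linear recurrences modulo a prime `m` with linearly independent vectors
  of coefficients, as soon as `N ≥ m ^ ε` and the roots and their quotients have orders `≥ m ^ ε`;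
* the vectors `(x_1 b_1 ^ n, …, x_d b_d ^ n)`, `n < N`, `N ≥ m ^ ε`, for fixed different integers `b_j ≥ 2` and
  all `x_j ≠ 0`, modulo all but `C X ^ ε` of the primes `m ≤ X`: for instance the recurrences with the coefficients
  `2 ^ n mod m`, `3 ^ n mod m`.

In these examples only `m ^ ε` of the `m ^ d` vectors of the box occur. In the starting results the coefficients run through
a box, or through the integer parts of generalised polynomials.

From Mathlib: `ZMod.stdAddChar`: the additive character `j ↦ exp (2 π i j / q)` of the integers modulo `q`; `ZMod.val`: the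
least residue.

Proof: the sieve of the starting result `ThinCoefficients` (helper84) works for all sequences which are well distributed
modulo small integers; families with small Fourier coefficients have this property; the Fourier coefficients of short
recurrences are estimated by the method of Bourgain, Glibichuk and Konyagin (`Pool.Agent.Run7.h823.BK`).
-/

namespace Pool.Agent.Results.MP_8d13b5_lc.ResidueVectors

open Pool.Agent.H884R2.Sko Pool.Agent.H692R2.USS Finset
open Pool.Agent.Results.MP_8d13b5_lc.AlmostAllCoefficients (Easy)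

/-- The Fourier coefficients of the vectors of residues `y i`, `i ∈ s`, modulo `q` at the nonzero frequencies are at most
`η` times the number of the vectors: `|∑ i ∈ s, e(h·y_i / q)| ≤ η |s|` for all vectors `h ≠ 0` modulo `q`. -/
def Flat {τ ι : Type} [Fintype ι] (q : ℕ) [NeZero q] (η : ℝ) (s : Finset τ) (y : τ → ι → ZMod q) : Prop :=
  ∀ h : ι → ZMod q, h ≠ 0 → ‖∑ i ∈ s, (ZMod.stdAddChar (∑ j, h j * y i j) : ℂ)‖ ≤ η * s.card

/-- The integral vector `c₀ + y_i`, with the least residues `0 ≤ y_i < q`. -/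
def vec {τ ι : Type} {q : ℕ} (y : τ → ι → ZMod q) (c₀ : ι → ℤ) (i : τ) (j : ι) : ℤ := c₀ j + ((y i j).val : ℕ)

/-- **Theorem.** There are one errorless algorithm `A` for all integer linear recurrence sequences and one total computable
function `f` with the following property.

(1) For every `d ≥ 1` there is `B` and for every `β > 0` there is `δ > 0` such that for all large `q`, all families
`y_i`, `i ∈ s`, of vectors of residues modulo `q` with Fourier coefficients at most `q ^ (-β) |s|` and all integral vectors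
`c₀`: for all but at most `q ^ (-δ) |s|` of the members the recurrence with the vector of coefficients `c₀ + y_i` is easy
(`Easy`) for all initial values with `|a_i| ≤ q ^ δ`: `u` has a zero term if and only if one of the `d` initial values is
zero, `A` halts on every input which codes `u`, and if the initial values are nonzero there is a prime `p ≤ (log q) ^ B`
which divides no term of `u`, and `f` recognises `u`.

(2) Examples: short linear recurrences. (3) Examples: the first powers of fixed integers, modulo all but `C X ^ ε` of the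
primes `m ≤ X`. -/
theorem result :
    (∃ A : List (ℕ × ℕ) × List (ℕ × ℕ) →. Bool, Partrec A ∧
      (∀ z v, IsLRS z v → ∀ b ∈ A z, (b = true ↔ ∃ n, v n = 0)) ∧
      ∃ f : ℕ × (List (ℕ × ℕ) × List (ℕ × ℕ)) → Bool, Computable f ∧
        (∀ (y : ℕ) (z : List (ℕ × ℕ) × List (ℕ × ℕ)) (v : ℕ → ℤ), IsLRS z v → f (y, z) = true →
          ∀ n, v n ≠ 0) ∧
        ∀ d : ℕ, 1 ≤ d → ∃ B : ℝ, 0 < B ∧ ∀ β : ℝ, 0 < β → ∃ δ : ℝ, 0 < δ ∧ ∃ q₀ : ℕ,
          ∀ (q : ℕ) [NeZero q], q₀ ≤ q → ∀ (τ : Type) (s : Finset τ) (y : τ → Fin d → ZMod q),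
          Flat q ((q : ℝ) ^ (-β)) s y → ∀ c₀ : Fin d → ℤ,
          ({i : τ | i ∈ s ∧ ¬ Easy A f d ((q : ℝ) ^ δ) (Real.log q ^ B) (vec y c₀ i)}.ncard : ℝ) ≤
            (q : ℝ) ^ (-δ) * s.card) ∧
    (∀ (k : ℕ) (ε : ℝ), 0 < ε → ∃ β : ℝ, 0 < β ∧ ∃ m₀ : ℕ, ∀ (m : ℕ) [Fact m.Prime], m₀ ≤ m →
      ∀ (d : ℕ) (c : Fin d → Fin k → ZMod m) (g : Fin k → (ZMod m)ˣ) (N : ℕ), LinearIndependent (ZMod m) c →
      (∀ i, (m : ℝ) ^ ε ≤ orderOf (g i)) → (∀ i j, i ≠ j → (m : ℝ) ^ ε ≤ orderOf (g i / g j)) → (m : ℝ) ^ ε ≤ N →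
      Flat m ((m : ℝ) ^ (-β)) (range N) (fun n j => ∑ i, c j i * (g i : ZMod m) ^ n)) ∧
    (∀ (d : ℕ) (ε : ℝ), 0 < ε → ∃ β : ℝ, 0 < β ∧ ∀ b : Fin d → ℕ, (∀ j, 2 ≤ b j) → Function.Injective b →
      ∃ C : ℝ, ∀ X : ℕ, 1 ≤ X → ∀ Q : Finset ℕ,
      (∀ m ∈ Q, m ≤ X ∧ ∃ _ : Fact m.Prime, ¬ ∀ N : ℕ, (m : ℝ) ^ ε ≤ N → ∀ x : Fin d → ZMod m, (∀ j, x j ≠ 0) →
        Flat m ((m : ℝ) ^ (-β)) (range N) (fun n j => x j * (b j : ZMod m) ^ n)) →
      (Q.card : ℝ) ≤ C * (X : ℝ) ^ ε) := by
  classical
  refine ⟨?_, fun k ε hε => Pool.Agent.Run7.h823.WF.flat_rec k hε, fun d ε hε => Pool.Agent.Run7.h823.WF.flat_pow d hε⟩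
  obtain ⟨𝒜, h𝒜, h𝒜e⟩ := algo
  obtain ⟨f, hf, hfe⟩ := Pool.Agent.H684R3.Smo.t10
  refine ⟨𝒜, h𝒜, fun z v hv => (h𝒜e z v hv).1, f, hf, fun y z v hv ht n hn => ?_,
    fun d hd => ?_⟩
  · obtain ⟨q, _, _, hq⟩ := (hfe y z v hv).1 ht
    apply hq n
    rw [hn]
    exact dvd_zero _
  · have heasy : ∀ (X Y : ℝ) (c : Fin d → ℤ), Pool.Agent.R851.SK.EasyF d X Y c →
        Easy 𝒜 f d X Y c := by
      intro X Y c hc a u haX hu
      refine ⟨⟨?_, ?_⟩, fun z hz => ?_, fun ha => ?_⟩
      · rintro ⟨n, hn⟩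
        by_contra hcon
        push Not at hcon
        obtain ⟨p, hp, hpY, hpv⟩ := hc a u hcon haX hu
        apply (hpv n).1
        rw [hn]
        exact dvd_zero _
      · rintro ⟨i, hi⟩
        exact ⟨i, by rw [hu.1 i, hi]⟩
      · rw [(h𝒜e z u hz).2]
        by_cases ha : ∃ i, a i = 0
        · obtain ⟨i, hi⟩ := ha
          exact Or.inl ⟨i, by rw [hu.1 i, hi]⟩
        · push Not at ha
          obtain ⟨p, hp, -, hpv⟩ := hc a u ha haX hu
          exact Or.inr ⟨p, hp, fun n => (hpv n).1⟩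
      · obtain ⟨p, hp, hpY, hpv⟩ := hc a u ha haX hu
        refine ⟨⟨p, hp, hpY, hpv⟩, fun z hz => ?_⟩
        rw [hfe _ _ _ hz]
        exact ⟨p, Nat.le_floor hpY, hp, fun n => (hpv n).1⟩
    obtain ⟨B, hB, hmain⟩ := Pool.Agent.Run7.h823.WF.Sk.residues d hd
    refine ⟨B, hB, fun β hβ => ?_⟩
    obtain ⟨δ, hδ, q₀, h⟩ := hmain β hβ
    refine ⟨δ, hδ, q₀, fun q _ hq τ s y hfl c₀ => le_trans ?_ (h τ q hq s y c₀ hfl)⟩
    apply Pool.Agent.Run7.h823.WF.ncard_mono
    intro i _ hn hE
    exact hn (heasy _ _ _ hE)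

end Pool.Agent.Results.MP_8d13b5_lc.ResidueVectors
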